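import Pool.Agent.Y305.BC.Stm

/-! Project BC: smoothness of `q` up to the circle, flatness on the Cantor set. The criterion `flat`
and the structure of the proof follow the starting file `Pool/Agent/TH300/Cn3.lean`. -/

set_option autoImplicit false

open MeasureTheory Metric Set Filter Topology
open scoped ContDiff ENNReal

namespace Pool.Agent.Y96.BC

open Pool.Agent.Y305.BC

/-! ### The circle -/

/-- `exp(2πiζ)` -/
noncomputable def eC (z : ℂ) : ℂ := Complex.exp (2 * Real.pi * z * Complex.I)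

theorem ex_eq (t : ℝ) : ex t = eC t := rfl

theorem eC_diff : Differentiable ℂ eC := by
  unfold eC; fun_prop

theorem eC_hasDerivAt (z : ℂ) : HasDerivAt eC (2 * Real.pi * Complex.I * eC z) z := by
  have h1 : HasDerivAt (fun z : ℂ => 2 * Real.pi * z * Complex.I) (2 * Real.pi * Complex.I) z := by
    have := ((hasDerivAt_id z).const_mul (2 * Real.pi : ℂ)).mul_const Complex.I
    simpa using this
  have h2 := h1.cexp
  unfold eC
  rw [mul_comm (2 * (Real.pi : ℂ) * Complex.I)]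
  exact h2

theorem eC_add (z w : ℂ) : eC (z + w) = eC z * eC w := by
  unfold eC
  rw [← Complex.exp_add]
  congr 1
  ring

theorem norm_ex (t : ℝ) : ‖ex t‖ = 1 := by
  unfold ex
  rw [Complex.norm_exp]
  simp

theorem continuous_ex : Continuous ex := by
  have : Continuous fun t : ℝ => eC t := eC_diff.continuous.comp Complex.continuous_ofReal
  exact this

theorem norm_eC_sub {z : ℂ} {t : ℝ} (h : ‖z - t‖ ≤ 1 / 8) : ‖eC z - ex t‖ ≤ 16 * ‖z - t‖ := by
  have e : eC z = ex t * eC (z - t) := by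
    rw [ex_eq, ← eC_add]; congr 1; ring
  have e2 : eC z - ex t = ex t * (eC (z - t) - 1) := by rw [e]; ring
  rw [e2, norm_mul, norm_ex, one_mul]
  have hn : ‖2 * (Real.pi : ℂ) * (z - t) * Complex.I‖ = 2 * Real.pi * ‖z - t‖ := by
    rw [norm_mul, norm_mul, norm_mul, Complex.norm_I, Complex.norm_real, Complex.norm_ofNat,
      Real.norm_eq_abs, abs_of_pos Real.pi_pos, mul_one]
  have hpi := Real.pi_lt_four
  have h1 : ‖2 * (Real.pi : ℂ) * (z - t) * Complex.I‖ ≤ 1 := by
    rw [hn]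
    nlinarith [norm_nonneg (z - (t : ℂ)), Real.pi_pos]
  have h2 := Complex.norm_exp_sub_one_le h1
  rw [hn] at h2
  unfold eC
  refine h2.trans ?_
  nlinarith [norm_nonneg (z - (t : ℂ)), Real.pi_pos]

theorem norm_ex_sub (s t : ℝ) : ‖ex s - ex t‖ ≤ 16 * ‖s - t‖ := by
  rcases le_or_gt ‖s - t‖ (1 / 8) with h | h
  · have h1 : ‖(s : ℂ) - t‖ = ‖s - t‖ := by rw [← Complex.ofReal_sub, Complex.norm_real]
    have := norm_eC_sub (z := s) (t := t) (by rw [h1]; exact h)
    rw [h1] at this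
    exact this
  · have : ‖ex s - ex t‖ ≤ ‖ex s‖ + ‖ex t‖ := norm_sub_le _ _
    rw [norm_ex, norm_ex] at this
    linarith

/-! ### The distance from the Cantor set -/

theorem KC_nonempty : KC.Nonempty := by
  have : KK.Nonempty := ⟨cc fun _ => false, mem_range_self _⟩
  exact this.image _

theorem KC_compact (h : IsCompact KK) : IsCompact KC := h.image continuous_ex

theorem dk_pos (h : IsCompact KK) {z : ℂ} (hz : z ∉ KC) : 0 < dk z :=
  ((KC_compact h).isClosed.notMem_iff_infDist_pos KC_nonempty).1 hz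

theorem dk_nonneg (z : ℂ) : 0 ≤ dk z := infDist_nonneg

theorem dk_le {z k : ℂ} (hk : k ∈ KC) : dk z ≤ ‖z - k‖ := by
  rw [← dist_eq_norm]; exact infDist_le_dist_of_mem hk

theorem KC_norm {z : ℂ} (hz : z ∈ KC) : ‖z‖ = 1 := by
  obtain ⟨x, -, rfl⟩ := hz
  exact norm_ex x

theorem dk_le_two {z : ℂ} (hz : ‖z‖ ≤ 1) : dk z ≤ 2 := by
  obtain ⟨k, hk⟩ := KC_nonempty
  refine (dk_le hk).trans ((norm_sub_le _ _).trans ?_)
  rw [KC_norm hk]; linarith

/-! ### A criterion for smoothness -/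

theorem flat {K : Set ℝ} (f : ℕ → ℝ → ℂ) (h0 : ∀ n, ∀ t ∈ K, f n t = 0)
    (h1 : ∀ n, ∀ t ∉ K, HasDerivAt (f n) (f (n + 1) t) t)
    (h2 : ∀ n, ∃ C : ℝ, ∀ s, ∀ t ∈ K, ‖f n s‖ ≤ C * ‖s - t‖ ^ 2) :
    ContDiff ℝ ∞ (f 0) ∧ ∀ n t, HasDerivAt (f n) (f (n + 1) t) t := by
  have h3 : ∀ n t, HasDerivAt (f n) (f (n + 1) t) t := by
    intro n t
    by_cases ht : t ∈ K
    · obtain ⟨C, hC⟩ := h2 n
      have h4 : f n =O[𝓝 t] fun s => ‖s - t‖ ^ 2 := by
        refine Asymptotics.IsBigO.of_bound C (Eventually.of_forall fun s => ?_)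
        rw [norm_pow, norm_norm]
        exact hC s t ht
      have h5 := h4.hasFDerivAt (𝕜 := ℝ) (by norm_num)
      have h6 := h5.hasDerivAt
      rw [h0 (n + 1) t ht]
      simpa using h6
    · exact h1 n t ht
  have h4 : ∀ n, iteratedDeriv n (f 0) = f n := by
    intro n
    induction n with
    | zero => rw [iteratedDeriv_zero]
    | succ n ih =>
      rw [iteratedDeriv_succ, ih]
      ext t
      exact (h3 n t).deriv
  refine ⟨contDiff_of_differentiable_iteratedDeriv fun m _ => ?_, h3⟩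
  rw [h4]
  exact fun t => (h3 m t).differentiableAt

/-! ### Inside the disc -/

variable {q : ℂ → ℂ} {RR : Set ℂ} {c : ℝ}

theorem mem_RR (h : Pot q RR c) {z : ℂ} (hz : ‖z‖ ≤ 1) (hk : z ∉ KC) : z ∈ RR := by
  refine h.2.2.2.2.2.1 z hz hk z ?_
  rw [sub_self, norm_zero]
  have := h.1
  positivity

theorem q_diffAt (h : Pot q RR c) {z : ℂ} (hz : z ∈ RR) : DifferentiableAt ℂ q z :=
  h.2.2.1.differentiableAt (h.2.1.mem_nhds hz)

theorem q_analytic (h : Pot q RR c) {z : ℂ} (hz : z ∈ RR) : AnalyticAt ℂ q z :=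
  h.2.2.1.analyticAt (h.2.1.mem_nhds hz)

theorem q_zero (h : Pot q RR c) {z : ℂ} (hz : z ∈ KC) : q z = 0 := by
  obtain ⟨x, hx, rfl⟩ := hz
  exact h.2.2.2.2.1 x hx

theorem deriv_bound (hK : IsCompact KK) (h : Pot q RR c) :
    ∃ C : ℝ, 0 ≤ C ∧ ∀ z, ‖z‖ ≤ 1 → z ∉ KC → ‖deriv q z‖ ≤ C * dk z := by
  obtain ⟨C, hC⟩ := h.2.2.2.2.2.2 3
  have hc := h.1
  refine ⟨|C| / c, by positivity, fun z hz hk => ?_⟩
  have hd := dk_pos hK hk
  have hR : 0 < c * dk z ^ 2 := by positivity
  have hb := Complex.norm_deriv_le_of_forall_mem_sphere_norm_le (f := q) (c := z)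
    (R := c * dk z ^ 2) (C := |C| * dk z ^ 3) hR ?_ ?_
  · refine hb.trans (le_of_eq ?_)
    field_simp
  · have hcl : closure (ball z (c * dk z ^ 2)) ⊆ RR := by
      intro w hw
      have := closure_ball_subset_closedBall hw
      rw [mem_closedBall, dist_eq_norm] at this
      exact h.2.2.2.2.2.1 z hz hk w this
    exact DifferentiableOn.diffContOnCl fun w hw => (q_diffAt h (hcl hw)).differentiableWithinAt
  · intro w hw
    rw [mem_sphere, dist_eq_norm] at hw
    refine (hC z hz hk w hw.le).trans ?_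
    exact mul_le_mul_of_nonneg_right (le_abs_self C) (by positivity)

open Classical in
/-- the derivative of `q`, zero on the Cantor set -/
noncomputable def qd (q : ℂ → ℂ) (z : ℂ) : ℂ := if z ∈ KC then 0 else deriv q z

theorem qd_zero {z : ℂ} (hz : z ∈ KC) : qd q z = 0 := if_pos hz

theorem qd_eq {z : ℂ} (hz : z ∉ KC) : qd q z = deriv q z := if_neg hz

theorem cont_of_bound {g : ℂ → ℂ} {C : ℝ} (h0 : ∀ z ∈ KC, g z = 0)
    (h1 : ∀ z, ‖z‖ ≤ 1 → z ∉ KC → ContinuousAt g z)
    (h2 : ∀ z, ‖z‖ ≤ 1 → z ∉ KC → ‖g z‖ ≤ C * dk z) (hC : 0 ≤ C) :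
    ContinuousOn g {z | 0 ≤ ‖z‖ ∧ ‖z‖ ≤ 1} := by
  intro z hz
  by_cases hk : z ∈ KC
  · have hb : ∀ w ∈ {z : ℂ | 0 ≤ ‖z‖ ∧ ‖z‖ ≤ 1}, ‖g w‖ ≤ C * ‖w - z‖ := by
      intro w hw
      by_cases hwk : w ∈ KC
      · rw [h0 w hwk, norm_zero]; positivity
      · exact (h2 w hw.2 hwk).trans (mul_le_mul_of_nonneg_left (dk_le hk) hC)
    unfold ContinuousWithinAt
    rw [h0 z hk]
    refine squeeze_zero_norm' (a := fun w => C * ‖w - z‖) ?_ ?_
    · filter_upwards [self_mem_nhdsWithin] with w hw using hb w hw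
    · have : Continuous fun w : ℂ => C * ‖w - z‖ := by fun_prop
      have h3 := this.tendsto z
      simp only [sub_self, norm_zero, mul_zero] at h3
      exact h3.mono_left nhdsWithin_le_nhds
  · exact (h1 z hz.2 hk).continuousWithinAt

theorem nice (hK : IsCompact KK) (h : Pot q RR c) : Nice 0 1 q (qd q) := by
  refine ⟨?_, ?_, ?_⟩
  · obtain ⟨C, hC⟩ := h.2.2.2.2.2.2 1
    refine cont_of_bound (C := |C|) (fun z hz => q_zero h hz)
      (fun z hz hk => (q_diffAt h (mem_RR h hz hk)).continuousAt) (fun z hz hk => ?_) (abs_nonneg _)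
    have := hC z hz hk z (by
      rw [sub_self, norm_zero]
      have := h.1
      positivity)
    rw [pow_one] at this
    exact this.trans (mul_le_mul_of_nonneg_right (le_abs_self C) (dk_nonneg z))
  · obtain ⟨C, hC0, hC⟩ := deriv_bound hK h
    refine cont_of_bound (C := C) (fun z hz => qd_zero hz) (fun z hz hk => ?_)
      (fun z hz hk => by rw [qd_eq hk]; exact hC z hz hk) hC0
    have h1 : ContinuousAt (deriv q) z := (q_analytic h (mem_RR h hz hk)).deriv.continuousAt
    refine h1.congr ?_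
    filter_upwards [(KC_compact hK).isClosed.isOpen_compl.mem_nhds hk] with w hw
    exact (qd_eq hw).symm
  · intro z _ hz
    have hk : z ∉ KC := fun hk => by rw [KC_norm hk] at hz; exact lt_irrefl _ hz
    rw [qd_eq hk]
    exact (q_diffAt h (mem_RR h hz.le hk)).hasDerivAt

/-! ### Along the circle -/

/-- `q` in the angular coordinate -/
noncomputable def QQ (q : ℂ → ℂ) (z : ℂ) : ℂ := q (eC z)

/-- the preimage of the Cantor set -/
def KT : Set ℝ := {t | ex t ∈ KC}

theorem KT_closed (hK : IsCompact KK) : IsClosed KT :=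
  (KC_compact hK).isClosed.preimage continuous_ex

theorem QQ_analytic (h : Pot q RR c) {z : ℂ} (hz : eC z ∈ RR) : AnalyticAt ℂ (QQ q) z := by
  have h1 : IsOpen (eC ⁻¹' RR) := h.2.1.preimage eC_diff.continuous
  have h2 : DifferentiableOn ℂ (QQ q) (eC ⁻¹' RR) := by
    intro w hw
    exact ((q_diffAt h hw).comp w eC_diff.differentiableAt).differentiableWithinAt
  exact h2.analyticAt (h1.mem_nhds hz)

theorem QQ_iter (h : Pot q RR c) (n : ℕ) {z : ℂ} (hz : eC z ∈ RR) :
    HasDerivAt (iteratedDeriv n (QQ q)) (iteratedDeriv (n + 1) (QQ q) z) z := by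
  have h2 := (QQ_analytic h hz).iterated_deriv n
  rw [← iteratedDeriv_eq_iterate] at h2
  rw [iteratedDeriv_succ]
  exact h2.differentiableAt.hasDerivAt

theorem QQ_bound (hK : IsCompact KK) (h : Pot q RR c) (n : ℕ) :
    ∃ C : ℝ, 0 ≤ C ∧ ∀ t : ℝ, t ∉ KT → ‖iteratedDeriv n (QQ q) t‖ ≤ C * dk (ex t) ^ 2 := by
  obtain ⟨C, hC⟩ := h.2.2.2.2.2.2 (2 + 2 * n)
  have hc := h.1
  set a : ℝ := min (c / 16) (1 / 64) with ha
  have ha0 : 0 < a := by rw [ha]; positivity
  have ha1 : a ≤ c / 16 := min_le_left _ _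
  have ha2 : a ≤ 1 / 64 := min_le_right _ _
  refine ⟨n.factorial * |C| / a ^ n, by positivity, fun t ht => ?_⟩
  have hk : ex t ∉ KC := ht
  have hd := dk_pos hK hk
  have hz : ‖ex t‖ ≤ 1 := (norm_ex t).le
  have hd2 := dk_le_two hz
  have hd4 : dk (ex t) ^ 2 ≤ 4 := by nlinarith
  have hR : 0 < a * dk (ex t) ^ 2 := by positivity
  have hin : ∀ w : ℂ, ‖w - t‖ ≤ a * dk (ex t) ^ 2 → ‖eC w - ex t‖ ≤ c * dk (ex t) ^ 2 := by
    intro w hw
    have h1 : a * dk (ex t) ^ 2 ≤ 1 / 8 := by nlinarith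
    refine (norm_eC_sub (hw.trans h1)).trans ?_
    nlinarith [mul_le_mul_of_nonneg_right ha1 (sq_nonneg (dk (ex t)))]
  have hb := Complex.norm_iteratedDeriv_le_of_forall_mem_sphere_norm_le (f := QQ q) (c := (t : ℂ))
    (R := a * dk (ex t) ^ 2) (C := |C| * dk (ex t) ^ (2 + 2 * n)) n hR ?_ ?_
  · refine hb.trans (le_of_eq ?_)
    rw [mul_pow, pow_add, pow_mul]
    field_simp
  · refine DifferentiableOn.diffContOnCl fun w hw => ?_
    have := closure_ball_subset_closedBall hw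
    rw [mem_closedBall, dist_eq_norm] at this
    exact (QQ_analytic h (h.2.2.2.2.2.1 _ hz hk _ (hin w this))).differentiableAt.differentiableWithinAt
  · intro w hw
    rw [mem_sphere, dist_eq_norm] at hw
    refine (hC _ hz hk _ (hin w hw.le)).trans ?_
    exact mul_le_mul_of_nonneg_right (le_abs_self C) (by positivity)

open Classical in
theorem qsm : S_QSM := by
  intro q RR c hK h
  refine ⟨qd q, nice hK h, fun χ hχ hloc => ?_⟩
  set f : ℕ → ℝ → ℂ := fun n t => if t ∈ KT then 0 else (χ t : ℂ) * iteratedDeriv n (QQ q) t with hf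
  have hKT : ∀ t ∉ KT, t ∉ KK := fun t ht htK => ht ⟨t, htK, rfl⟩
  have hRR : ∀ t ∉ KT, eC (t : ℂ) ∈ RR := fun t ht => mem_RR h (norm_ex t).le ht
  have key := flat (K := KT) f (fun n t ht => by simp only [hf, if_pos ht]) (fun n t ht => ?_)
      fun n => ?_
  · have e0 : (fun t : ℝ => (χ t : ℂ) * q (ex t)) = f 0 := by
      ext t
      symm
      by_cases ht : t ∈ KT
      · simp only [hf, if_pos ht, q_zero h ht, mul_zero]
      · simp only [hf, if_neg ht, iteratedDeriv_zero]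
        rfl
    rw [e0]
    refine ⟨key.1, fun t => ?_⟩
    have h1 := key.2 0 t
    have e1 : f (0 + 1) t = (χ t : ℂ) * (qd q (ex t) * av 1 t) := by
      by_cases ht : t ∈ KT
      · simp only [hf, if_pos ht, qd_zero ht, zero_mul, mul_zero]
      · have hk : ex t ∉ KC := ht
        simp only [hf, if_neg ht, zero_add, qd_eq hk]
        congr 1
        rw [iteratedDeriv_one]
        have h2 : HasDerivAt (QQ q) (deriv q (eC t) * (2 * Real.pi * Complex.I * eC t)) t :=
          (q_diffAt h (hRR t ht)).hasDerivAt.comp (t : ℂ) (eC_hasDerivAt t)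
        rw [h2.deriv]
        unfold av pol
        rw [ex_eq, Complex.ofReal_one, one_mul]
    rw [e1] at h1
    exact h1
  · have hR := hRR t ht
    have h1 : HasDerivAt (fun s : ℝ => iteratedDeriv n (QQ q) s)
        (iteratedDeriv (n + 1) (QQ q) t) t := (QQ_iter h n hR).comp_ofReal
    have h2 : HasDerivAt (fun s : ℝ => (χ t : ℂ) * iteratedDeriv n (QQ q) s)
        ((χ t : ℂ) * iteratedDeriv (n + 1) (QQ q) t) t := h1.const_mul _
    have e : f (n + 1) t = (χ t : ℂ) * iteratedDeriv (n + 1) (QQ q) t := by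
      simp only [hf, if_neg ht]
    rw [e]
    refine h2.congr_of_eventuallyEq ?_
    filter_upwards [hloc t (hKT t ht), (KT_closed hK).isOpen_compl.mem_nhds ht] with s hs hsK
    have hsK' : s ∉ KT := hsK
    simp only [hf, if_neg hsK', hs]
  · obtain ⟨C, hC0, hC⟩ := QQ_bound hK h n
    refine ⟨C * 16 ^ 2, fun s t ht => ?_⟩
    by_cases hs : s ∈ KT
    · simp only [hf, if_pos hs, norm_zero]
      positivity
    · simp only [hf, if_neg hs]
      rw [norm_mul, Complex.norm_real, Real.norm_eq_abs]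
      have h1 := hC s hs
      have h2 : dk (ex s) ≤ 16 * ‖s - t‖ := (dk_le ht).trans (norm_ex_sub s t)
      calc |χ s| * ‖iteratedDeriv n (QQ q) (s : ℂ)‖ ≤ 1 * (C * dk (ex s) ^ 2) := by
            gcongr
            exact hχ s
        _ ≤ C * 16 ^ 2 * ‖s - t‖ ^ 2 := by
            rw [one_mul, mul_assoc, ← mul_pow]
            have := dk_nonneg (ex s)
            gcongr

end Pool.Agent.Y96.BC
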